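import Mathlib

/-!
# Maximum principle for products of divided differences
-/

set_option autoImplicit false

namespace Pool.Agent.Helper38.EM

open Finset

variable {E I : Type*} [Fintype E]

/-- A differentiable function is bounded at the centre by its bound on the circle. -/
theorem norm_le_of_circle {f : ℂ → ℂ} (hf : Differentiable ℂ f) {ρ M : ℝ} (hρ : 0 < ρ)
    (h : ∀ s : ℂ, ‖s‖ = ρ → ‖f s‖ ≤ M) : ‖f 0‖ ≤ M := by
  refine Complex.norm_le_of_forall_mem_frontier_norm_le (U := Metric.ball (0 : ℂ) ρ)
    Metric.isBounded_ball hf.diffContOnCl (fun z hz => ?_)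
    (subset_closure (Metric.mem_ball_self hρ))
  rw [frontier_ball (0 : ℂ) hρ.ne', mem_sphere_zero_iff_norm] at hz
  exact h z hz

theorem differentiable_dslope {f : ℂ → ℂ} (hf : Differentiable ℂ f) :
    Differentiable ℂ (dslope f 0) := by
  have h : DifferentiableOn ℂ (dslope f 0) Set.univ :=
    (Complex.differentiableOn_dslope Filter.univ_mem).mpr hf.differentiableOn
  exact differentiableOn_univ.mp h

/-- Maximum principle for the divided differences. -/
theorem mx (S : Finset I) (P Q : I → E → ℂ → ℂ) (D : E → Bool)
    (hP : ∀ i ∈ S, ∀ e, Differentiable ℂ (P i e)) (hQ : ∀ i ∈ S, ∀ e, Differentiable ℂ (Q i e))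
    (h0 : ∀ i ∈ S, ∀ e, D e = true → P i e 0 = Q i e 0) {ρ M : ℝ} (hρ : 0 < ρ)
    (hM : ∀ σ : E → Bool, (∀ e, σ e = true → D e = true) → ∀ s : ℂ, ‖s‖ = ρ →
      ‖∑ i ∈ S, ∏ e, (if σ e then Q i e s else P i e s)‖ ≤ M) :
    ‖∑ i ∈ S, ∏ e, (if D e then deriv (fun s => P i e s - Q i e s) 0 else P i e 0)‖ ≤
      (2 / ρ) ^ (univ.filter fun e => D e = true).card * M := by
  classical
  let d : I → E → ℂ → ℂ := fun i e => dslope (fun s => P i e s - Q i e s) 0
  let J : ℂ → ℂ := fun s => ∑ i ∈ S, ∏ e, (if D e then d i e s else P i e s)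
  have hJ : Differentiable ℂ J := by
    refine Differentiable.fun_sum fun i hi => Differentiable.fun_finsetProd fun e _ => ?_
    by_cases hD : D e = true
    · simp only [hD, if_true]
      exact differentiable_dslope ((hP i hi e).sub (hQ i hi e))
    · simp only [hD, if_false, Bool.false_eq_true]
      exact hP i hi e
  have hJ0 : J 0 = ∑ i ∈ S, ∏ e,
      (if D e then deriv (fun s => P i e s - Q i e s) 0 else P i e 0) := by
    simp only [J, d, dslope_same]
  rw [← hJ0]
  set N := (univ.filter fun e => D e = true).card with hN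
  refine norm_le_of_circle hJ hρ fun s hs => ?_
  have hs0 : s ≠ 0 := by
    rintro rfl
    rw [norm_zero] at hs
    exact hρ.ne hs
  -- expansion
  have hd : ∀ i ∈ S, ∀ e, D e = true → d i e s = s⁻¹ * (P i e s - Q i e s) := by
    intro i hi e hD
    simp only [d]
    rw [dslope_of_ne _ hs0, slope_def_field, h0 i hi e hD]
    field_simp
    ring
  have hexp : J s = s⁻¹ ^ N * ∑ σ ∈ univ.filter (fun σ : E → Bool => ∀ e, σ e = true → D e = true),
      (∏ e, (if σ e then (-1 : ℂ) else 1)) * ∑ i ∈ S, ∏ e, (if σ e then Q i e s else P i e s) := by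
    have h1 : ∀ i ∈ S, ∏ e, (if D e then d i e s else P i e s) =
        s⁻¹ ^ N * ∑ σ ∈ univ.filter (fun σ : E → Bool => ∀ e, σ e = true → D e = true),
          (∏ e, (if σ e then (-1 : ℂ) else 1)) * ∏ e, (if σ e then Q i e s else P i e s) := by
      intro i hi
      have h2 : ∀ e, (if D e then d i e s else P i e s) =
          (if D e then s⁻¹ else 1) * ∑ b : Bool, (if b = true → D e = true then
            (if b then -Q i e s else P i e s) else 0) := by
        intro e
        by_cases hD : D e = true
        · rw [Fintype.sum_bool]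
          simp only [hD, if_true, imp_true_iff, Bool.false_eq_true, if_false]
          rw [hd i hi e hD]
          ring
        · rw [Fintype.sum_bool]
          simp [hD]
      rw [Finset.prod_congr rfl fun e _ => h2 e, Finset.prod_mul_distrib]
      congr 1
      · rw [Finset.prod_ite, Finset.prod_const, Finset.prod_const_one, mul_one]
      · rw [Finset.prod_univ_sum, Fintype.piFinset_univ, Finset.sum_filter]
        apply Finset.sum_congr rfl
        intro σ _
        by_cases hσ : ∀ e, σ e = true → D e = true
        · rw [if_pos hσ, ← Finset.prod_mul_distrib]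
          apply Finset.prod_congr rfl
          intro e _
          rw [if_pos (hσ e)]
          split_ifs <;> ring
        · rw [if_neg hσ]
          push Not at hσ
          obtain ⟨e, he1, he2⟩ := hσ
          exact Finset.prod_eq_zero (Finset.mem_univ e) (by rw [if_neg]; tauto)
    simp only [J]
    rw [Finset.sum_congr rfl h1, ← Finset.mul_sum, Finset.sum_comm]
    congr 1
    exact Finset.sum_congr rfl fun σ _ => by rw [Finset.mul_sum]
  rw [hexp, norm_mul, norm_pow, norm_inv, hs]
  have hbound : ‖∑ σ ∈ univ.filter (fun σ : E → Bool => ∀ e, σ e = true → D e = true),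
      (∏ e, (if σ e then (-1 : ℂ) else 1)) * ∑ i ∈ S, ∏ e, (if σ e then Q i e s else P i e s)‖ ≤
      2 ^ N * M := by
    refine (norm_sum_le _ _).trans ?_
    have h3 : ∀ σ ∈ univ.filter (fun σ : E → Bool => ∀ e, σ e = true → D e = true),
        ‖(∏ e, (if σ e then (-1 : ℂ) else 1)) *
          ∑ i ∈ S, ∏ e, (if σ e then Q i e s else P i e s)‖ ≤ M := by
      intro σ hσ
      rw [Finset.mem_filter] at hσ
      rw [norm_mul, norm_prod]
      have h4 : ∏ e, ‖(if σ e then (-1 : ℂ) else 1)‖ = 1 := by
        apply Finset.prod_eq_one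
        intro e _
        split_ifs <;> simp
      rw [h4, one_mul]
      exact hM σ hσ.2 s hs
    refine (Finset.sum_le_sum h3).trans ?_
    rw [Finset.sum_const, nsmul_eq_mul]
    apply le_of_eq
    congr 1
    -- number of sigma
    have h5 : (univ.filter (fun σ : E → Bool => ∀ e, σ e = true → D e = true)) =
        Fintype.piFinset (fun e => if D e = true then (univ : Finset Bool) else {false}) := by
      ext σ
      rw [Finset.mem_filter, Fintype.mem_piFinset]
      simp only [Finset.mem_univ, true_and]
      apply forall_congr'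
      intro e
      by_cases hD : D e = true <;> simp [hD]
    rw [h5, Fintype.card_piFinset]
    have h6 : ∀ e, (if D e = true then (univ : Finset Bool) else {false}).card =
        if D e = true then 2 else 1 := by
      intro e
      by_cases hD : D e = true <;> simp [hD]
    rw [Finset.prod_congr rfl fun e _ => h6 e, Finset.prod_ite, Finset.prod_const,
      Finset.prod_const_one, mul_one]
    push_cast
    rfl
  calc ρ⁻¹ ^ N * _ ≤ ρ⁻¹ ^ N * (2 ^ N * M) := mul_le_mul_of_nonneg_left hbound (by positivity)
    _ = _ := by rw [div_pow, inv_pow]; field_simp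

end Pool.Agent.Helper38.EM
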